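import Pool.Agent.HP25.FA.D

set_option autoImplicit false

/-! As `Pool/Agent/HP25/FA/C` and `D`, for measures whose Fourier transform decays only up to the frequencies of the size of the
dilation (`TDecay`), in particular for finite sets of points. -/

namespace Pool.Agent.HP25.FN

open Finset MeasureTheory Filter Pool.Agent.TH869.EVF Pool.Agent.TH869.SQ
open Pool.Agent.H807R2.Dav
open Pool.Agent.H373R2.T7 (orth)
open Pool.Agent.HP25.FD (ee_charFun ee_integrable)
open Pool.Agent.HP25.FA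

/-- polynomial decay up to the frequency `2 π lam` -/
def TDecay (ν : Measure ℝ) (C δ lam : ℝ) : Prop := ∀ t : ℝ, |t| ≤ 2 * Real.pi * lam → ‖charFun ν t‖ * |t| ^ δ ≤ C

lemma tdecay_nonneg {ν : Measure ℝ} {C δ lam : ℝ} (h : 0 ≤ lam) (hd : TDecay ν C δ lam) : 0 ≤ C := by
  refine le_trans ?_ (hd 0 (by rw [abs_zero]; positivity))
  positivity

/-- the decay of the characteristic function -/
lemma tpr_decay (ν : Measure ℝ) [IsProbabilityMeasure ν] (C δ : ℝ) (hδ : 0 < δ) (lam : ℝ) (hdec : TDecay ν C δ lam) (hlam : 1 ≤ lam) (R : ℕ)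
    (hR : 1 ≤ R) (M : ℕ) (hM : 1 ≤ M) (hMR : M ∣ 4 * R) (h : ℤ) (hh : ¬ (M : ℤ) ∣ h) :
    ‖∑ t ∈ range (4 * R), ((pr' ν lam R t : ℝ) : ℂ) * ee ((t : ℝ) * ((h : ℝ) / M))‖ ≤ C * (lam / M) ^ (-δ) := by
  obtain ⟨G, hG⟩ := hMR
  have hG1 : 1 ≤ G := by
    rcases Nat.eq_zero_or_pos G with rfl | h1
    · omega
    · exact h1
  have hRr : (0 : ℝ) < R := by exact_mod_cast hR
  have hMr : (0 : ℝ) < M := by exact_mod_cast hM
  have hGr : (0 : ℝ) < G := by exact_mod_cast hG1
  have hC0 : 0 ≤ C := tdecay_nonneg (by linarith) hdec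
  have e1 : ∀ t : ℕ, ee ((t : ℝ) * ((h : ℝ) / M)) = ee ((t : ℝ) * (((h * G : ℤ) : ℝ) / ((4 * R : ℕ) : ℝ))) := by
    intro t
    congr 2
    rw [hG]
    push_cast
    field_simp
  simp only [e1]
  rw [pr'_char ν lam R hR]
  have key : ∀ a' ∈ range R, ‖∑ a ∈ range R, (if ((4 * R : ℕ) : ℤ) ∣ h * G - ((a : ℤ) - a') then
        ∫ x, ee ((((a : ℝ) - a') / ((4 * R : ℕ) : ℝ) * lam) * x) ∂ν else 0)‖ ≤ C * (lam / M) ^ (-δ) := by
    intro a' ha'
    rw [mem_range] at ha'
    by_cases hex : ∃ a ∈ range R, ((4 * R : ℕ) : ℤ) ∣ h * G - ((a : ℤ) - a')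
    · obtain ⟨a, ha, hd⟩ := hex
      rw [sum_eq_single a]
      · rw [if_pos hd, ee_charFun]
        have ha2 := mem_range.1 ha
        have h2 : (G : ℤ) ∣ (a : ℤ) - a' := by
          have h3 : (G : ℤ) ∣ h * G - ((a : ℤ) - a') := by
            refine dvd_trans ?_ hd
            rw [hG]
            push_cast
            exact dvd_mul_left _ _
          have h4 := dvd_sub (dvd_mul_left (G : ℤ) h) h3
          have h5 : h * (G : ℤ) - (h * G - ((a : ℤ) - a')) = (a : ℤ) - a' := by ring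
          rwa [h5] at h4
        have h3 : (a : ℤ) - a' ≠ 0 := by
          intro h0
          apply hh
          rw [h0, sub_zero, hG] at hd
          push_cast at hd
          exact Int.dvd_of_mul_dvd_mul_right (by exact_mod_cast (by omega : G ≠ 0)) hd
        have h4 : (G : ℝ) ≤ |(a : ℝ) - a'| := by
          have h5 := Int.le_of_dvd (abs_pos.2 h3) ((dvd_abs _ _).2 h2)
          have h6 : ((G : ℤ) : ℝ) ≤ ((|(a : ℤ) - a'| : ℤ) : ℝ) := by exact_mod_cast h5
          push_cast at h6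
          exact h6
        obtain ⟨τ, hτ⟩ : ∃ τ, τ = 2 * Real.pi * (((a : ℝ) - a') / ((4 * R : ℕ) : ℝ) * lam) := ⟨_, rfl⟩
        rw [← hτ]
        have h7 : lam / M ≤ |τ| := by
          have h14 : |τ| = 2 * Real.pi * (|(a : ℝ) - a'| / (M * G) * lam) := by
            rw [hτ, abs_mul (2 * Real.pi), abs_of_pos (by positivity : 0 < 2 * Real.pi), abs_mul _ lam, abs_of_pos (by linarith : 0 < lam),
              abs_div, hG]
            push_cast
            rw [abs_of_pos (by positivity : (0 : ℝ) < M * G)]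
          rw [h14]
          have h8 : 1 / (M : ℝ) ≤ |(a : ℝ) - a'| / (M * G) := by
            rw [div_le_div_iff₀ hMr (by positivity)]
            nlinarith
          have h9 : 1 ≤ 2 * Real.pi := by linarith [Real.pi_gt_three]
          calc lam / M = 1 * (1 / M * lam) := by ring
            _ ≤ 2 * Real.pi * (|(a : ℝ) - a'| / (M * G) * lam) := by
                apply mul_le_mul h9 _ (by positivity) (by positivity)
                exact mul_le_mul_of_nonneg_right h8 (by linarith)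
        have h10 := hdec τ (by
          have h15 : |(a : ℝ) - a'| ≤ R := by
            have h16 := mem_range.1 ha
            have h17 : (a : ℝ) ≤ R := by exact_mod_cast h16.le
            have h18 : (a' : ℝ) ≤ R := by exact_mod_cast ha'.le
            have h19 : (0 : ℝ) ≤ a := Nat.cast_nonneg _
            have h20 : (0 : ℝ) ≤ a' := Nat.cast_nonneg _
            rw [abs_le]
            constructor <;> linarith
          rw [hτ, abs_mul (2 * Real.pi), abs_of_pos (by positivity : 0 < 2 * Real.pi), abs_mul _ lam, abs_of_pos (by linarith : 0 < lam),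
            abs_div]
          push_cast
          rw [abs_of_pos (by positivity : (0 : ℝ) < 4 * R)]
          have h21 : |(a : ℝ) - a'| / (4 * R) ≤ 1 := by
            rw [div_le_one (by positivity)]
            linarith
          calc 2 * Real.pi * (|(a : ℝ) - a'| / (4 * R) * lam) ≤ 2 * Real.pi * (1 * lam) := by gcongr
            _ = _ := by ring)
        have h11 : 0 < lam / M := by positivity
        have h12 : (lam / M) ^ δ ≤ |τ| ^ δ := Real.rpow_le_rpow h11.le h7 hδ.le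
        have h13 : 0 < (lam / M) ^ δ := Real.rpow_pos_of_pos h11 _
        rw [Real.rpow_neg h11.le, ← div_eq_mul_inv, le_div_iff₀ h13]
        refine le_trans ?_ h10
        exact mul_le_mul_of_nonneg_left h12 (norm_nonneg _)
      · intro b hb hne
        rw [if_neg]
        intro hd2
        apply hne
        have h3 := dvd_sub hd hd2
        have h4 : h * (G : ℤ) - ((a : ℤ) - a') - (h * G - ((b : ℤ) - a')) = (b : ℤ) - a := by ring
        rw [h4] at h3
        rw [mem_range] at hb ha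
        have h5 := Int.eq_zero_of_abs_lt_dvd h3 (by rw [abs_lt]; constructor <;> push_cast <;> omega)
        omega
      · intro h2
        exact absurd ha h2
    · push Not at hex
      rw [sum_eq_zero (fun a ha => if_neg (hex a ha)), norm_zero]
      positivity
  rw [sum_comm, norm_mul]
  have h1 : ‖(1 / (R : ℂ))‖ = 1 / R := by rw [norm_div, norm_one, Complex.norm_natCast]
  rw [h1]
  calc 1 / (R : ℝ) * ‖∑ a' ∈ range R, ∑ a ∈ range R, (if ((4 * R : ℕ) : ℤ) ∣ h * G - ((a : ℤ) - a') then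
        ∫ x, ee ((((a : ℝ) - a') / ((4 * R : ℕ) : ℝ) * lam) * x) ∂ν else 0)‖
      ≤ 1 / (R : ℝ) * ∑ a' ∈ range R, C * (lam / M) ^ (-δ) := by
        apply mul_le_mul_of_nonneg_left _ (by positivity)
        exact (norm_sum_le _ _).trans (sum_le_sum key)
    _ = _ := by
        rw [sum_const, card_range, nsmul_eq_mul]
        field_simp

/-- the probability of a residue class -/
lemma tpr_class (ν : Measure ℝ) [IsProbabilityMeasure ν] (C δ : ℝ) (hδ : 0 < δ) (lam : ℝ) (hdec : TDecay ν C δ lam) (hlam : 1 ≤ lam) (R : ℕ)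
    (hR : 1 ≤ R) (M : ℕ) (hM : 1 ≤ M) (hMR : M ∣ 4 * R) (a : ℕ) :
    |∑ t ∈ range (4 * R), pr' ν lam R t * (if (M : ℤ) ∣ (t : ℤ) - a then 1 else 0) - 1 / M| ≤ C * (lam / M) ^ (-δ) := by
  have hMr : (0 : ℝ) < M := by exact_mod_cast hM
  have hMc : (M : ℂ) ≠ 0 := by exact_mod_cast (by omega : M ≠ 0)
  have hC0 : 0 ≤ C := tdecay_nonneg (by linarith) hdec
  have e1 : ∑ t ∈ range (4 * R), pr' ν lam R t * (if (M : ℤ) ∣ (t : ℤ) - a then 1 else 0) - 1 / M =
      ∑ t ∈ range (4 * R), pr' ν lam R t * ((if (M : ℤ) ∣ (t : ℤ) - a then 1 else 0) - 1 / M) := by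
    simp only [mul_sub]
    rw [sum_sub_distrib, ← sum_mul, pr'_sum ν lam R hR, one_mul]
  have e2 : ∀ t : ℕ, ((((if (M : ℤ) ∣ (t : ℤ) - a then (1 : ℝ) else 0) - 1 / M : ℝ)) : ℂ) =
      ∑ h ∈ (range M).erase 0, 1 / (M : ℂ) * (ee (-((a : ℝ) * ((h : ℝ) / M))) * ee ((t : ℝ) * ((h : ℝ) / M))) := by
    intro t
    have h1 := orth M hM ((t : ℤ) - a)
    rw [← add_sum_erase _ _ (mem_range.2 (by omega : 0 < M))] at h1
    have h2 : ∑ h ∈ (range M).erase 0, ee ((h : ℝ) * ((((t : ℤ) - a : ℤ) : ℝ) / M)) = (if (M : ℤ) ∣ (t : ℤ) - a then (M : ℂ) else 0) - 1 := by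
      rw [← h1, Nat.cast_zero, zero_mul, ee_zero]
      ring
    have h3 : ∀ h ∈ (range M).erase 0, 1 / (M : ℂ) * (ee (-((a : ℝ) * ((h : ℝ) / M))) * ee ((t : ℝ) * ((h : ℝ) / M))) =
        1 / (M : ℂ) * ee ((h : ℝ) * ((((t : ℤ) - a : ℤ) : ℝ) / M)) := by
      intro h _
      rw [← ee_add]
      congr 2
      push_cast
      ring
    rw [sum_congr rfl h3, ← mul_sum, h2]
    split_ifs
    · push_cast
      field_simp
    · push_cast
      ring
  rw [e1]
  have e3 : ((∑ t ∈ range (4 * R), pr' ν lam R t * ((if (M : ℤ) ∣ (t : ℤ) - a then 1 else 0) - 1 / M) : ℝ) : ℂ) =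
      ∑ h ∈ (range M).erase 0, 1 / (M : ℂ) * (ee (-((a : ℝ) * ((h : ℝ) / M))) *
        ∑ t ∈ range (4 * R), ((pr' ν lam R t : ℝ) : ℂ) * ee ((t : ℝ) * ((h : ℝ) / M))) := by
    rw [Complex.ofReal_sum]
    have e4 : ∀ t ∈ range (4 * R), ((pr' ν lam R t * ((if (M : ℤ) ∣ (t : ℤ) - a then 1 else 0) - 1 / M) : ℝ) : ℂ) =
        ∑ h ∈ (range M).erase 0, ((pr' ν lam R t : ℝ) : ℂ) * (1 / (M : ℂ) * (ee (-((a : ℝ) * ((h : ℝ) / M))) * ee ((t : ℝ) * ((h : ℝ) / M)))) := by
      intro t _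
      rw [Complex.ofReal_mul, e2 t, mul_sum]
    rw [sum_congr rfl e4, sum_comm]
    apply sum_congr rfl
    intro h _
    rw [mul_sum, mul_sum]
    apply sum_congr rfl
    intro t _
    ring
  rw [← Real.norm_eq_abs, ← Complex.norm_real, e3]
  refine (norm_sum_le _ _).trans ?_
  have h5 : ∀ h ∈ (range M).erase 0, ‖1 / (M : ℂ) * (ee (-((a : ℝ) * ((h : ℝ) / M))) *
        ∑ t ∈ range (4 * R), ((pr' ν lam R t : ℝ) : ℂ) * ee ((t : ℝ) * ((h : ℝ) / M)))‖ ≤ 1 / M * (C * (lam / M) ^ (-δ)) := by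
    intro h hh
    rw [mem_erase, mem_range] at hh
    rw [norm_mul, norm_mul, norm_ee, one_mul]
    have h6 : ‖(1 / (M : ℂ))‖ = 1 / M := by rw [norm_div, norm_one, Complex.norm_natCast]
    rw [h6]
    apply mul_le_mul_of_nonneg_left _ (by positivity)
    have h7 := tpr_decay ν C δ hδ lam hdec hlam R hR M hM hMR (h : ℤ) (by
      intro hd
      have h8 := Int.natCast_dvd_natCast.1 hd
      have := Nat.le_of_dvd (by omega) h8
      omega)
    push_cast at h7
    exact h7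
  refine (sum_le_sum h5).trans ?_
  rw [sum_const, card_erase_of_mem (mem_range.2 (by omega)), card_range, nsmul_eq_mul]
  have h9 : ((M - 1 : ℕ) : ℝ) ≤ M := by exact_mod_cast Nat.sub_le _ _
  have h10 : 0 ≤ C * (lam / M) ^ (-δ) := by positivity
  calc ((M - 1 : ℕ) : ℝ) * (1 / M * (C * (lam / M) ^ (-δ))) ≤ M * (1 / M * (C * (lam / M) ^ (-δ))) := by gcongr
    _ = _ := by field_simp

/-- **Uniform distribution of the integers close to the multiples of a random number** -/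
theorem fw_tdecay (C δ : ℝ) (hδ : 0 < δ) (hC : 1 ≤ C) (ν : Measure ℝ) [IsProbabilityMeasure ν] (lam : ℝ) (hdec : TDecay ν C δ lam)
    (hlam : 1 ≤ lam) (N : ℕ) (hN : 1 ≤ N) (hNlam : (N : ℝ) ≤ lam) (R : ℕ) (hR : 1 ≤ R) (hNR : ∀ M : ℕ, 1 ≤ M → M ≤ N → M ∣ 4 * R) :
    FW (range (4 * R)) (pr' ν lam R) 1 N (1 / 2) (δ / 2) C := by
  refine ⟨hC, fun n _ => pr'_nonneg _ _ _ _, (pr'_sum ν lam R hR).le, ?_⟩
  intro M hM _ hMN F hper hF hsum
  have hN1 : (1 : ℝ) ≤ N := by exact_mod_cast hN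
  have hN0 : (0 : ℝ) < N := by linarith
  have hM0 : (0 : ℝ) < M := by exact_mod_cast hM
  have hMN' : M ≤ N := by
    have h1 : (M : ℝ) ≤ N := hMN.trans (by
      calc (N : ℝ) ^ (1 / 2 : ℝ) ≤ (N : ℝ) ^ (1 : ℝ) := Real.rpow_le_rpow_of_exponent_le hN1 (by norm_num)
        _ = N := Real.rpow_one _)
    exact_mod_cast h1
  have hMR := hNR M hM hMN'
  rw [sum_class _ _ F M hM hper]
  have e1 : ∑ a ∈ range M, F a * ∑ n ∈ range (4 * R), pr' ν lam R n * (if (M : ℤ) ∣ (n : ℤ) - a then 1 else 0) =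
      ∑ a ∈ range M, F a * (∑ n ∈ range (4 * R), pr' ν lam R n * (if (M : ℤ) ∣ (n : ℤ) - a then 1 else 0) - 1 / M) := by
    have : ∑ a ∈ range M, F a * (1 / (M : ℝ)) = 0 := by rw [← sum_mul, hsum, zero_mul]
    simp only [mul_sub]
    rw [sum_sub_distrib, this, sub_zero]
  rw [e1]
  have h2 : (lam / M) ^ (-δ) ≤ (N : ℝ) ^ (-(δ / 2)) := by
    have h3 : (N : ℝ) ^ (1 / 2 : ℝ) ≤ lam / M := by
      rw [le_div_iff₀ hM0]
      calc (N : ℝ) ^ (1 / 2 : ℝ) * M ≤ (N : ℝ) ^ (1 / 2 : ℝ) * (N : ℝ) ^ (1 / 2 : ℝ) := by gcongr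
        _ = N := by rw [← Real.rpow_add hN0]; norm_num
        _ ≤ lam := hNlam
    calc (lam / M) ^ (-δ) ≤ ((N : ℝ) ^ (1 / 2 : ℝ)) ^ (-δ) :=
          Real.rpow_le_rpow_of_nonpos (by positivity) h3 (by linarith)
      _ = _ := by rw [← Real.rpow_mul hN0.le]; congr 1; ring
  have hC0 : 0 ≤ C := by linarith
  calc |∑ a ∈ range M, F a * (∑ n ∈ range (4 * R), pr' ν lam R n * (if (M : ℤ) ∣ (n : ℤ) - a then 1 else 0) - 1 / M)|
      ≤ ∑ a ∈ range M, |F a * (∑ n ∈ range (4 * R), pr' ν lam R n * (if (M : ℤ) ∣ (n : ℤ) - a then 1 else 0) - 1 / M)| := abs_sum_le_sum_abs _ _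
    _ ≤ ∑ a ∈ range M, C * (N : ℝ) ^ (-(δ / 2)) := by
        refine sum_le_sum fun a _ => ?_
        rw [abs_mul]
        calc _ ≤ 1 * (C * (lam / M) ^ (-δ)) := mul_le_mul (hF a) (tpr_class ν C δ hδ lam hdec hlam R hR M hM hMR a) (abs_nonneg _) (by norm_num)
          _ ≤ _ := by rw [one_mul]; exact mul_le_mul_of_nonneg_left h2 hC0
    _ = _ := by rw [sum_const, card_range, nsmul_eq_mul]

/-- **One scale.** -/
theorem near_consecutive (C δ₀ : ℝ) (hC : 1 ≤ C) (hδ₀ : 0 < δ₀) (hδ₁ : δ₀ ≤ 1) (s : ℕ) (hs : 1 ≤ s) (δ : ℝ) (hδ : 0 < δ) :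
    ∃ κ C' : ℝ, 0 < κ ∧ 1 ≤ C' ∧ ∀ (ν : Measure ℝ) [IsProbabilityMeasure ν], ∀ lam : ℝ, TDecay ν C δ₀ lam → 1 ≤ lam →
      ∀ X : ℕ → ℤ → ℝ, (∀ (p : ℕ) (t : ℤ), X p (t + p) = X p t) →
      ν.real {x | ∃ t : ℤ, |(t : ℝ) - lam * x| ≤ lam ^ κ ∧ ∃ L : ℕ, (L : ℝ) ≤ lam ^ κ ∧ ∃ I : Fin s → Set ℝ, (∀ i, (I i).OrdConnected) ∧
        C' * ((L : ℝ) ^ (1 / 2 + δ) * √(1 + Real.log lam)) < |dif X I L t|} ≤ C' * lam ^ (-κ) := by
  classical
  obtain ⟨κ₁, C₁, hκ0, hκ1, hC1, H⟩ := consecutive (1 / 2) (δ₀ / 2) C (by norm_num) (by norm_num) (by positivity)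
    (by linarith) hC 1 le_rfl s hs δ hδ
  refine ⟨κ₁ / 2, 160 * C₁, by positivity, by linarith, fun ν _ lam hdec hlam X hX => ?_⟩
  obtain ⟨κ, hκ⟩ : ∃ κ, κ = κ₁ / 2 := ⟨_, rfl⟩
  rw [← hκ]
  have hκp : 0 < κ := by rw [hκ]; positivity
  have hκl : κ < 1 := by rw [hκ]; linarith
  obtain ⟨N, hN⟩ : ∃ N, N = ⌊lam⌋₊ := ⟨_, rfl⟩
  have hN1 : 1 ≤ N := by rw [hN]; exact Nat.le_floor (by exact_mod_cast hlam)
  have hNle : (N : ℝ) ≤ lam := by rw [hN]; exact Nat.floor_le (by linarith)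
  have hNlt : lam < N + 1 := by rw [hN]; exact Nat.lt_floor_add_one _
  have hN1r : (1 : ℝ) ≤ N := by exact_mod_cast hN1
  have hN0 : (0 : ℝ) < N := by linarith
  have hlam0 : 0 < lam := by linarith
  obtain ⟨T, hT⟩ : ∃ T, T = pr (N + s) := ⟨_, rfl⟩
  have hNT : N ≤ T := by
    have := Nat.add_two_le_nth_prime (N + s)
    rw [hT]
    unfold pr
    omega
  obtain ⟨R, hR⟩ : ∃ R, R = T.factorial := ⟨_, rfl⟩
  have hR1 : 1 ≤ R := by rw [hR]; exact T.factorial_pos
  have hdiv : ∀ M : ℕ, 1 ≤ M → M ≤ T → M ∣ 4 * R := by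
    intro M hM hMT
    rw [hR]
    exact (Nat.dvd_factorial hM hMT).mul_left 4
  have hFW := fw_tdecay C δ₀ hδ₀ hC ν lam hdec hlam N hN1 hNle R hR1 (fun M hM hMN => hdiv M hM (hMN.trans hNT))
  have hEx : ∀ h : ℤ, ∃ E : Finset ℕ, E ⊆ range (4 * R) ∧ ∑ n ∈ E, pr' ν lam R n ≤ C₁ * (N : ℝ) ^ (-κ₁) ∧
        ∀ n ∈ range (4 * R), n ∉ E → ∀ K : ℕ, (K : ℝ) ≤ (N : ℝ) ^ κ₁ →
          ∀ I : Fin s → Set ℝ, (∀ i, (I i).OrdConnected) →
          |∑ k ∈ range K, (ind I (fun i => X (pr (k + i)) ((n : ℤ) + h)) -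
            ∏ i : Fin s, mean (pr (k + i)) (fun t => ind1 (I i) (X (pr (k + i)) ((t : ℤ) + h))))| ≤
            C₁ * Pool.Agent.TH869.SQ.lam δ N K := by
    intro h
    exact H (range (4 * R)) (pr' ν lam R) N hFW (fun p n => X p ((n : ℤ) + h)) (fun p n => by
      have : ((n + p : ℕ) : ℤ) + h = ((n : ℤ) + h) + p := by push_cast; ring
      show X p (((n + p : ℕ) : ℤ) + h) = _
      rw [this, hX]) hN1
  choose E hE0 hE1 hE2 using hEx
  -- the mean over all residues does not change under a shift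
  have hmean : ∀ (p : ℕ) (hp : 0 < p) (h : ℤ) (g : ℤ → ℝ), (∀ t, g (t + p) = g t) →
      mean p (fun t : ℕ => g ((t : ℤ) + h)) = mean p (fun t : ℕ => g (t : ℤ)) := by
    intro p hp h g hg
    unfold mean
    congr 1
    have hpz : (0 : ℤ) < p := by exact_mod_cast hp
    apply sum_nbij' (i := fun t : ℕ => (((t : ℤ) + h) % p).toNat) (j := fun t : ℕ => (((t : ℤ) - h) % p).toNat)
    · intro t _
      rw [mem_range]
      have h1 := Int.emod_lt_of_pos ((t : ℤ) + h) hpz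
      have h2 := Int.emod_nonneg ((t : ℤ) + h) hpz.ne'
      omega
    · intro t _
      rw [mem_range]
      have h1 := Int.emod_lt_of_pos ((t : ℤ) - h) hpz
      have h2 := Int.emod_nonneg ((t : ℤ) - h) hpz.ne'
      omega
    · intro t ht
      rw [mem_range] at ht
      have h2 := Int.emod_nonneg ((t : ℤ) + h) hpz.ne'
      have h3 : (((((t : ℤ) + h) % p).toNat : ℕ) : ℤ) = ((t : ℤ) + h) % p := Int.toNat_of_nonneg h2
      show (((((((t : ℤ) + h) % p).toNat : ℕ) : ℤ) - h) % p).toNat = t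
      rw [h3, Int.emod_sub_emod]
      have h4 : (t : ℤ) + h - h = t := by ring
      rw [h4, Int.emod_eq_of_lt (by positivity) (by exact_mod_cast ht)]
      simp
    · intro t ht
      rw [mem_range] at ht
      have h2 := Int.emod_nonneg ((t : ℤ) - h) hpz.ne'
      have h3 : (((((t : ℤ) - h) % p).toNat : ℕ) : ℤ) = ((t : ℤ) - h) % p := Int.toNat_of_nonneg h2
      show (((((((t : ℤ) - h) % p).toNat : ℕ) : ℤ) + h) % p).toNat = t
      rw [h3, Int.emod_add_emod]
      have h4 : (t : ℤ) - h + h = t := by ring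
      rw [h4, Int.emod_eq_of_lt (by positivity) (by exact_mod_cast ht)]
      simp
    · intro t _
      apply per_dvd hg
      have h2 := Int.emod_nonneg ((t : ℤ) + h) hpz.ne'
      have h3 : (((((t : ℤ) + h) % p).toNat : ℕ) : ℤ) = ((t : ℤ) + h) % p := Int.toNat_of_nonneg h2
      rw [h3]
      exact Int.dvd_self_sub_emod
  obtain ⟨Hw, hHw⟩ : ∃ Hw : ℕ, Hw = ⌊lam ^ κ⌋₊ + 1 := ⟨_, rfl⟩
  have hlk : 1 ≤ lam ^ κ := Real.one_le_rpow hlam hκp.le
  -- the cover
  have hcov : {x | ∃ t : ℤ, |(t : ℝ) - lam * x| ≤ lam ^ κ ∧ ∃ L : ℕ, (L : ℝ) ≤ lam ^ κ ∧ ∃ I : Fin s → Set ℝ, (∀ i, (I i).OrdConnected) ∧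
        160 * C₁ * ((L : ℝ) ^ (1 / 2 + δ) * √(1 + Real.log lam)) < |dif X I L t|} ⊆
      ⋃ h ∈ Icc (-(Hw : ℤ)) Hw, {x | (round (lam * x) % ((4 * R : ℕ) : ℤ)).toNat ∈ E h} := by
    rintro x ⟨t, ht, L, hL, I, hI, hbad⟩
    rw [Set.mem_iUnion₂]
    refine ⟨t - round (lam * x), ?_, ?_⟩
    · have h1 := abs_sub_round (lam * x)
      have h2 : |(((t - round (lam * x) : ℤ)) : ℝ)| ≤ lam ^ κ + 1 / 2 := by
        push_cast
        have : (t : ℝ) - round (lam * x) = ((t : ℝ) - lam * x) + (lam * x - round (lam * x)) := by ring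
        rw [this]
        exact (abs_add_le _ _).trans (add_le_add ht h1)
      have h3 : lam ^ κ < ⌊lam ^ κ⌋₊ + 1 := Nat.lt_floor_add_one _
      have h4 : |(((t - round (lam * x) : ℤ)) : ℝ)| < ((Hw : ℤ) : ℝ) + 1 := by
        rw [hHw]
        push_cast
        push_cast at h2
        linarith
      have h5 : |t - round (lam * x)| < (Hw : ℤ) + 1 := by exact_mod_cast h4
      rw [mem_Icc]
      rw [abs_lt] at h5
      omega
    · simp only [Set.mem_ofPred_eq]
      obtain ⟨h, hh⟩ : ∃ h, h = t - round (lam * x) := ⟨_, rfl⟩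
      obtain ⟨n, hn⟩ : ∃ n, n = (round (lam * x) % ((4 * R : ℕ) : ℤ)).toNat := ⟨_, rfl⟩
      rw [← hh, ← hn]
      by_contra hcon
      have hQ : (0 : ℤ) < ((4 * R : ℕ) : ℤ) := by exact_mod_cast (by omega : 0 < 4 * R)
      have hn2 : (n : ℤ) = round (lam * x) % ((4 * R : ℕ) : ℤ) := by
        rw [hn]
        exact Int.toNat_of_nonneg (Int.emod_nonneg _ hQ.ne')
      have hnr : n < 4 * R := by
        have := Int.emod_lt_of_pos (round (lam * x)) hQ
        rw [← hn2] at this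
        exact_mod_cast this
      have hLN : (L : ℝ) ≤ (N : ℝ) ^ κ₁ := by
        rcases Nat.lt_or_ge N 2 with h2 | h2
        · have h3 : N = 1 := by omega
          rw [h3] at hNlt
          norm_num at hNlt
          have h4 : lam ^ κ < 2 := by
            calc lam ^ κ ≤ lam ^ (1 : ℝ) := Real.rpow_le_rpow_of_exponent_le hlam hκl.le
              _ = lam := Real.rpow_one _
              _ < 2 := by linarith
          have h5 : (L : ℝ) < 2 := lt_of_le_of_lt hL h4
          have h6 : L ≤ 1 := by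
            have : L < 2 := by exact_mod_cast h5
            omega
          have h7 : (L : ℝ) ≤ 1 := by exact_mod_cast h6
          exact h7.trans (Real.one_le_rpow hN1r hκ0.le)
        · have h2r : (2 : ℝ) ≤ N := by exact_mod_cast h2
          calc (L : ℝ) ≤ lam ^ κ := hL
            _ ≤ ((N : ℝ) ^ (2 : ℕ)) ^ κ := Real.rpow_le_rpow hlam0.le (by nlinarith) hκp.le
            _ = (N : ℝ) ^ κ₁ := by
              rw [← Real.rpow_natCast, ← Real.rpow_mul hN0.le, hκ]
              congr 1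
              push_cast
              ring
      have hLN' : L ≤ N := by
        have : (L : ℝ) ≤ N := hLN.trans (by
          calc (N : ℝ) ^ κ₁ ≤ (N : ℝ) ^ (1 : ℝ) := Real.rpow_le_rpow_of_exponent_le hN1r hκ1
            _ = N := Real.rpow_one _)
        exact_mod_cast this
      have h8 := hE2 h n (mem_range.2 hnr) hcon L hLN I hI
      have h9 : ∑ k ∈ range L, (ind I (fun i => X (pr (k + i)) ((n : ℤ) + h)) -
            ∏ i : Fin s, mean (pr (k + i)) (fun t => ind1 (I i) (X (pr (k + i)) ((t : ℤ) + h)))) = dif X I L t := by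
        unfold dif
        apply sum_congr rfl
        intro k hk
        rw [mem_range] at hk
        congr 1
        · congr 1
          funext i
          apply per_dvd (hX _)
          have h10 : ((pr (k + i) : ℕ) : ℤ) ∣ ((4 * R : ℕ) : ℤ) := by
            apply Int.natCast_dvd_natCast.2
            apply hdiv _ (pr_prime _).pos
            rw [hT]
            exact Nat.nth_monotone Nat.infinite_setOfPred_prime (by have := i.isLt; omega)
          refine h10.trans ?_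
          rw [hn2, hh]
          have h11 : round (lam * x) % ((4 * R : ℕ) : ℤ) + (t - round (lam * x)) - t = -(round (lam * x) - round (lam * x) % ((4 * R : ℕ) : ℤ)) := by ring
          rw [h11]
          exact (Int.dvd_self_sub_emod).neg_right
        · apply prod_congr rfl
          intro i _
          exact hmean (pr (k + i)) (pr_prime _).pos h (fun t => ind1 (I i) (X (pr (k + i)) t)) (fun t => by
            show ind1 (I i) (X (pr (k + i)) (t + (pr (k + i) : ℕ))) = _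
            rw [hX])
      rw [h9] at h8
      have h12 : C₁ * Pool.Agent.TH869.SQ.lam δ N L ≤ 160 * C₁ * ((L : ℝ) ^ (1 / 2 + δ) * √(1 + Real.log lam)) := by
        unfold Pool.Agent.TH869.SQ.lam
        apply mul_le_mul (by linarith) _ (by positivity) (by linarith)
        apply mul_le_mul_of_nonneg_left _ (by positivity)
        apply Real.sqrt_le_sqrt
        have := Real.log_le_log hN0 hNle
        linarith
      linarith
  refine (measureReal_mono hcov (measure_ne_top ν _)).trans ?_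
  refine (measureReal_biUnion_finset_le _ _).trans ?_
  have h1 : ∀ h ∈ Icc (-(Hw : ℤ)) Hw, ν.real {x | (round (lam * x) % ((4 * R : ℕ) : ℤ)).toNat ∈ E h} ≤ 16 * (C₁ * (N : ℝ) ^ (-κ₁)) := by
    intro h _
    refine (round_prob ν lam R hR1 (E h)).trans ?_
    linarith [hE1 h]
  refine (sum_le_sum h1).trans ?_
  rw [sum_const, nsmul_eq_mul, Int.card_Icc]
  have h2 : (((Hw : ℤ) + 1 - -(Hw : ℤ)).toNat : ℝ) ≤ 5 * lam ^ κ := by
    have h3 : ((Hw : ℤ) + 1 - -(Hw : ℤ)).toNat = 2 * Hw + 1 := by omega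
    rw [h3, hHw]
    push_cast
    have := Nat.floor_le (show 0 ≤ lam ^ κ by positivity)
    linarith
  have h3 : (N : ℝ) ^ (-κ₁) ≤ 2 * lam ^ (-κ₁) := by
    have h4 : lam / 2 ≤ N := by linarith
    calc (N : ℝ) ^ (-κ₁) ≤ (lam / 2) ^ (-κ₁) := Real.rpow_le_rpow_of_nonpos (by positivity) h4 (by linarith)
      _ = lam ^ (-κ₁) * (1 / 2) ^ (-κ₁) := by
          rw [div_eq_mul_one_div lam 2, Real.mul_rpow hlam0.le (by norm_num)]
      _ ≤ lam ^ (-κ₁) * 2 := by
          apply mul_le_mul_of_nonneg_left _ (by positivity)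
          rw [one_div, Real.inv_rpow (by norm_num), ← Real.rpow_neg (by norm_num), neg_neg]
          calc (2 : ℝ) ^ κ₁ ≤ 2 ^ (1 : ℝ) := Real.rpow_le_rpow_of_exponent_le (by norm_num) hκ1
            _ = 2 := Real.rpow_one _
      _ = _ := by ring
  have h5 : lam ^ κ * lam ^ (-κ₁) = lam ^ (-κ) := by
    rw [← Real.rpow_add hlam0]
    congr 1
    rw [hκ]
    ring
  have h6 : 0 ≤ (N : ℝ) ^ (-κ₁) := by positivity
  have h7 : 0 ≤ lam ^ (-κ₁) := by positivity
  calc (((Hw : ℤ) + 1 - -(Hw : ℤ)).toNat : ℝ) * (16 * (C₁ * (N : ℝ) ^ (-κ₁)))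
      ≤ (5 * lam ^ κ) * (16 * (C₁ * (2 * lam ^ (-κ₁)))) := by gcongr
    _ = 160 * C₁ * (lam ^ κ * lam ^ (-κ₁)) := by ring
    _ = _ := by rw [h5]


end Pool.Agent.HP25.FN
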