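import Pool.Agent.HP25.FN.A
import Pool.Agent.HP25.NI.D

set_option autoImplicit false

/-! The values of a smoothly varying function of non-integral order at integers with restricted digits: decay of the Fourier
transform of their law. -/

namespace Pool.Agent.HP25.FN

open Finset MeasureTheory Filter
open Pool.Agent.H807R2.Dav
open Pool.Agent.TH872.Sq
open Pool.Agent.N193.PS (SV)
open Pool.Agent.HP25.NI

/-- the uniform law of the points `g n`, `n ∈ s` -/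
noncomputable def law (s : Finset ℕ) (g : ℕ → ℝ) : Measure ℝ := ∑ n ∈ s, (s.card : ENNReal)⁻¹ • Measure.dirac (g n)

lemma law_prob (s : Finset ℕ) (g : ℕ → ℝ) (hs : 0 < s.card) : IsProbabilityMeasure (law s g) := by
  constructor
  unfold law
  rw [Measure.finsetSum_apply]
  simp only [Measure.smul_apply, measure_univ, smul_eq_mul, mul_one]
  rw [sum_const, nsmul_eq_mul]
  exact ENNReal.mul_inv_cancel (by exact_mod_cast hs.ne') (ENNReal.natCast_ne_top _)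

lemma law_real (s : Finset ℕ) (g : ℕ → ℝ) (hs : 0 < s.card) (A : Set ℝ) [DecidablePred fun n => g n ∈ A] :
    (law s g).real A = ((s.filter fun n => g n ∈ A).card : ℝ) / s.card := by
  have h1 : (law s g) A = ((s.filter fun n => g n ∈ A).card : ENNReal) * (s.card : ENNReal)⁻¹ := by
    unfold law
    rw [Measure.finsetSum_apply]
    simp only [Measure.smul_apply, smul_eq_mul, Measure.dirac_apply]
    have h2 : ∀ n ∈ s, (s.card : ENNReal)⁻¹ * A.indicator 1 (g n) = if g n ∈ A then (s.card : ENNReal)⁻¹ else 0 := by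
      intro n _
      by_cases h : g n ∈ A
      · rw [Set.indicator_of_mem h, if_pos h]
        simp
      · rw [Set.indicator_of_notMem h, if_neg h, mul_zero]
    rw [sum_congr rfl h2, ← sum_filter, sum_const, nsmul_eq_mul]
  rw [Measure.real, h1, ENNReal.toReal_mul, ENNReal.toReal_inv]
  simp
  rfl

lemma law_char (s : Finset ℕ) (g : ℕ → ℝ) (hs : 0 < s.card) (t : ℝ) :
    charFun (law s g) t = ∑ n ∈ s, ((1 / (s.card : ℝ) : ℝ) : ℂ) * ee (t / (2 * Real.pi) * g n) := by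
  have h0 : t = 2 * Real.pi * (t / (2 * Real.pi)) := by field_simp
  rw [h0, ← Pool.Agent.HP25.FD.ee_charFun]
  have h1 : 2 * Real.pi * (t / (2 * Real.pi)) / (2 * Real.pi) = t / (2 * Real.pi) := by field_simp
  rw [h1]
  unfold law
  rw [integral_finsetSum_measure]
  · apply sum_congr rfl
    intro n _
    rw [integral_smul_measure, integral_dirac]
    rw [ENNReal.toReal_inv, ENNReal.toReal_natCast, Complex.real_smul]
    congr 1
    push_cast
    rw [one_div]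
  · intro n _
    apply Integrable.smul_measure
    · exact integrable_dirac (by simp)
    · exact ENNReal.inv_ne_top.2 (by exact_mod_cast hs.ne')

theorem sv_tdecay (b : ℕ) (hb : 2 ≤ b) {c : ℝ} {φ : ℕ → ℝ → ℝ} (h : SV c φ) : ∃ (k₁ : ℕ) (C δ₀ : ℝ), 1 ≤ C ∧ 0 < δ₀ ∧ δ₀ ≤ 1 ∧
    ∀ k, k₁ ≤ k → 1 ≤ φ 0 ((b : ℝ) ^ k) ∧ ∀ D : ℕ → Finset ℕ, (∀ i < k, D i ⊆ range b ∧ 2 ≤ (D i).card) →
      0 < (SD b D k).card ∧ TDecay (law (SD b D k) fun n => φ 0 n / φ 0 ((b : ℝ) ^ k)) C δ₀ (φ 0 ((b : ℝ) ^ k)) := by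
  classical
  obtain ⟨e, c', K₀, c₁, c₂, hc₁, hc₂, hge1, hmono, hgr, hR⟩ := reg_sv b hb h
  have hb0 : 0 < b := by omega
  have hb2 : (2 : ℝ) ≤ b := by exact_mod_cast hb
  have hbr : (0 : ℝ) < b := by linarith
  obtain ⟨D₀, ρ, hD₀, hρh, hρ1, hdec⟩ := decay b hb (1 / 2) (by norm_num) (by norm_num) e c' c₁ c₂ hc₁ hc₂
  obtain ⟨B₀, hB₀⟩ := exists_nat_ge (φ 0 ((b : ℝ) ^ K₀))
  obtain ⟨C₆, hC₆, hdec⟩ := hdec B₀
  have hρ0 : 0 < ρ := by linarith
  have hlb : 0 < Real.log b := Real.log_pos (by linarith)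
  have hlb2 : Real.log 2 ≤ Real.log b := Real.log_le_log (by norm_num) hb2
  have hD₀r : (1 : ℝ) ≤ D₀ := by exact_mod_cast hD₀
  obtain ⟨δ₀, hδ₀⟩ : ∃ δ₀, δ₀ = -Real.log ρ / (D₀ * Real.log b) := ⟨_, rfl⟩
  have hlρ : Real.log ρ < 0 := Real.log_neg hρ0 hρ1
  have hδ0 : 0 < δ₀ := by rw [hδ₀]; exact div_pos (by linarith) (by positivity)
  have hlρ2 : -Real.log ρ ≤ Real.log 2 := by
    have := Real.log_le_log (by norm_num) hρh
    rw [one_div, Real.log_inv] at this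
    linarith
  have hδ1 : δ₀ ≤ 1 := by
    rw [hδ₀, div_le_one (by positivity)]
    nlinarith
  -- the powers
  have hρb : ρ = (b : ℝ) ^ (-(δ₀ * D₀)) := by
    rw [Real.rpow_def_of_pos hbr, hδ₀]
    have : Real.log b * -(-Real.log ρ / (D₀ * Real.log b) * D₀) = Real.log ρ := by field_simp
    rw [this, Real.exp_log hρ0]
  obtain ⟨C, hC⟩ : ∃ C, C = C₆ * (2 * (b * (2 * Real.pi))) := ⟨_, rfl⟩
  have hpi := Real.pi_gt_three
  have hC1 : 1 ≤ C := by
    rw [hC]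
    have : 1 ≤ 2 * ((b : ℝ) * (2 * Real.pi)) := by nlinarith
    nlinarith
  refine ⟨K₀, C, δ₀, hC1, hδ0, hδ1, fun k hk => ⟨hge1 k hk, fun D hD => ?_⟩⟩
  have hcard := SD_card_pos b hb D k hD
  have hcard' : 0 < (SD b D k).card := by exact_mod_cast hcard
  refine ⟨hcard', fun t ht => ?_⟩
  obtain ⟨lam, hlam⟩ : ∃ lam, lam = φ 0 ((b : ℝ) ^ k) := ⟨_, rfl⟩
  rw [← hlam] at ht ⊢
  have hlam1 : 1 ≤ lam := by rw [hlam]; exact hge1 k hk
  have hlam0 : 0 < lam := by linarith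
  rw [law_char _ _ hcard']
  obtain ⟨θ, hθ⟩ : ∃ θ, θ = t / (2 * Real.pi * lam) := ⟨_, rfl⟩
  have hθ1 : |θ| ≤ 1 := by
    rw [hθ, abs_div, abs_of_pos (by positivity : 0 < 2 * Real.pi * lam), div_le_one (by positivity)]
    exact ht
  have h2 := hdec K₀ φ _ hR (by
    simp only [if_pos le_rfl]
    refine hB₀.trans ?_
    have : B₀ ≤ b ^ B₀ := (Nat.lt_pow_self (by omega)).le
    exact_mod_cast this) k hk θ hθ1 (wD D k) (dig_wD b hb D k hD)
  simp only [if_pos hk] at h2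
  rw [← hlam] at h2
  have h3 : ∑ n ∈ SD b D k, ((1 / ((SD b D k).card : ℝ) : ℝ) : ℂ) * ee (t / (2 * Real.pi) * (φ 0 n / lam)) =
      ∑ n ∈ range (b ^ k), ((P b (wD D k) 0 k n : ℝ) : ℂ) * ee (θ * φ 0 n) := by
    have h4 : ∀ n ∈ range (b ^ k), ((P b (wD D k) 0 k n : ℝ) : ℂ) * ee (θ * φ 0 n) =
        if n ∈ SD b D k then ((1 / ((SD b D k).card : ℝ) : ℝ) : ℂ) * ee (t / (2 * Real.pi) * (φ 0 n / lam)) else 0 := by
      intro n hn
      rw [P_wD b hb D k hD n hn]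
      have h5 : θ * φ 0 n = t / (2 * Real.pi) * (φ 0 n / lam) := by rw [hθ]; field_simp
      rw [h5]
      split_ifs
      · rfl
      · simp
    rw [sum_congr rfl h4, ← sum_filter]
    apply sum_congr _ fun _ _ => rfl
    ext n
    rw [mem_filter]
    refine ⟨fun h => ⟨?_, h⟩, fun h => h.2⟩
    unfold SD at h
    exact (mem_filter.1 h).1
  rw [h3]
  obtain ⟨x, hx⟩ : ∃ x, x = |θ| * lam := ⟨_, rfl⟩
  rw [← hx] at h2
  have hx0 : 0 ≤ x := by rw [hx]; positivity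
  have htx : |t| = 2 * Real.pi * x := by
    rw [hx, hθ, abs_div, abs_of_pos (by positivity : 0 < 2 * Real.pi * lam)]
    field_simp
  obtain ⟨m, hm⟩ : ∃ m, m = lg b x := ⟨_, rfl⟩
  rw [← hm] at h2
  have hxm : x < (b : ℝ) ^ (m + 1) := by rw [hm]; exact lt_lg b hb x
  -- the power of `ρ`
  have h6 : ρ ^ (m / D₀) ≤ 2 * (b : ℝ) ^ (-(δ₀ * m)) := by
    have h7 : (m : ℝ) / D₀ - 1 ≤ ((m / D₀ : ℕ) : ℝ) := by
      have h8 : m < (m / D₀ + 1) * D₀ := by
        have := Nat.lt_div_mul_add (a := m) (b := D₀) (by omega)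
        linarith
      have h9 : (m : ℝ) < ((m / D₀ : ℕ) + 1) * D₀ := by exact_mod_cast h8
      rw [sub_le_iff_le_add, div_le_iff₀ (by linarith)]
      exact h9.le
    rw [← Real.rpow_natCast]
    calc ρ ^ (((m / D₀ : ℕ) : ℝ)) ≤ ρ ^ ((m : ℝ) / D₀ - 1) := Real.rpow_le_rpow_of_exponent_ge hρ0 hρ1.le h7
      _ = ρ ^ ((m : ℝ) / D₀) / ρ := by rw [Real.rpow_sub hρ0, Real.rpow_one]
      _ ≤ ρ ^ ((m : ℝ) / D₀) * 2 := by
          rw [div_le_iff₀ hρ0]
          have : 0 ≤ ρ ^ ((m : ℝ) / D₀) := by positivity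
          nlinarith
      _ = 2 * (b : ℝ) ^ (-(δ₀ * m)) := by
          rw [mul_comm]
          congr 1
          conv_lhs => rw [hρb]
          rw [← Real.rpow_mul hbr.le]
          congr 1
          field_simp
  have h7 : |t| ^ δ₀ ≤ (2 * Real.pi) * (b * (b : ℝ) ^ (δ₀ * m)) := by
    rw [htx, Real.mul_rpow (by positivity) hx0]
    have h8 : (2 * Real.pi) ^ δ₀ ≤ 2 * Real.pi := by
      calc (2 * Real.pi) ^ δ₀ ≤ (2 * Real.pi) ^ (1 : ℝ) := Real.rpow_le_rpow_of_exponent_le (by linarith) hδ1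
        _ = _ := Real.rpow_one _
    have h9 : x ^ δ₀ ≤ b * (b : ℝ) ^ (δ₀ * m) := by
      calc x ^ δ₀ ≤ ((b : ℝ) ^ (m + 1)) ^ δ₀ := Real.rpow_le_rpow hx0 hxm.le hδ0.le
        _ = (b : ℝ) ^ δ₀ * (b : ℝ) ^ (δ₀ * m) := by
            rw [← Real.rpow_natCast, ← Real.rpow_mul hbr.le, ← Real.rpow_add hbr]
            congr 1
            push_cast
            ring
        _ ≤ (b : ℝ) ^ (1 : ℝ) * (b : ℝ) ^ (δ₀ * m) := by
            apply mul_le_mul_of_nonneg_right _ (by positivity)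
            exact Real.rpow_le_rpow_of_exponent_le (by linarith) hδ1
        _ = _ := by rw [Real.rpow_one]
    exact mul_le_mul h8 h9 (by positivity) (by positivity)
  calc ‖∑ n ∈ range (b ^ k), ((P b (wD D k) 0 k n : ℝ) : ℂ) * ee (θ * φ 0 n)‖ * |t| ^ δ₀
      ≤ (C₆ * (2 * (b : ℝ) ^ (-(δ₀ * m)))) * ((2 * Real.pi) * (b * (b : ℝ) ^ (δ₀ * m))) := by
        apply mul_le_mul (h2.trans (mul_le_mul_of_nonneg_left h6 (by linarith))) h7 (by positivity) (by positivity)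
    _ = C₆ * (2 * (b * (2 * Real.pi))) * ((b : ℝ) ^ (-(δ₀ * m)) * (b : ℝ) ^ (δ₀ * m)) := by ring
    _ = C := by
        rw [← Real.rpow_add hbr, neg_add_cancel, Real.rpow_zero, mul_one, hC]

end Pool.Agent.HP25.FN
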